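import Pool.Agent.Y987.SZ.FormsN

set_option autoImplicit false

/-!
# Almost primes at the same place between many consecutive odd squares
-/

namespace Pool.Agent.Results.MP_3a3367_nt.AlignedAlmostPrimes

/-- The common offsets for the numbers `q 1, …, q r`: the `m`, `0 < m < 8 N`, for which none of the
numbers `(2 q i - 1)² + m` has a prime factor `≤ (8 N - 1) ^ κ`. -/
def Common {r : ℕ} (N : ℕ) (q : Fin r → ℕ) (κ : ℝ) : Set ℕ :=
  {m | 0 < m ∧ m < 8 * N ∧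
    ∀ i, ∀ p : ℕ, p.Prime → p ∣ (2 * q i - 1) ^ 2 + m → ((8 * N - 1 : ℕ) : ℝ) ^ κ < p}

/-- `m` is a term of a progression of `t` terms of `S` with a difference `d`, `1 ≤ d ≤ L`. -/
def InProgression (t : ℕ) (L : ℝ) (S : Set ℕ) (m : ℕ) : Prop :=
  ∃ a d : ℕ, 1 ≤ d ∧ (d : ℝ) ≤ L ∧ (∀ j < t, a + j * d ∈ S) ∧ ∃ j < t, m = a + j * d

open Finset Filter
open Pool.Agent.Y987.SZ

/-- odd squares have no fixed prime divisor -/
lemma adm_sq {r : ℕ} (q : Fin r → ℕ) (hq : ∀ i, 1 ≤ q i) :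
    AdmF (fun _ => 1) (fun i => (((2 * q i - 1) ^ 2 : ℕ) : ℤ)) := by
  intro p hp
  by_cases h2 : p = 2
  · refine ⟨0, ?_⟩
    intro i hd
    subst h2
    have h3 : (2 : ℤ) ∣ (((2 * q i - 1) ^ 2 : ℕ) : ℤ) := by simpa using hd
    have h4 : 2 ∣ (2 * q i - 1) ^ 2 := by exact_mod_cast h3
    have h5 := Nat.prime_two.dvd_of_dvd_pow h4
    have := hq i
    omega
  · haveI : Fact p.Prime := ⟨hp⟩
    obtain ⟨g, hg⟩ := FiniteField.exists_nonsquare (F := ZMod p) (by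
      rw [ZMod.ringChar_zmod_n]
      exact h2)
    refine ⟨(-g).val, ?_⟩
    intro i hd
    have h3 := (ZMod.intCast_zmod_eq_zero_iff_dvd _ p).2 hd
    push_cast at h3
    rw [ZMod.natCast_zmod_val] at h3
    apply hg
    refine ⟨((2 * q i - 1 : ℕ) : ZMod p), ?_⟩
    have : ((2 * q i - 1 : ℕ) : ZMod p) ^ 2 = g := by linear_combination h3
    rw [← this, sq]

lemma common_eq {r : ℕ} (N : ℕ) (q : Fin r → ℕ) (κ : ℝ) (hN : 1 ≤ N) :
    Common N q κ = RS (fun _ => 1) (fun i => (((2 * q i - 1) ^ 2 : ℕ) : ℤ)) (8 * N - 1)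
      (((8 * N - 1 : ℕ) : ℝ) ^ κ) := by
  ext m
  have hdiv : ∀ i, ∀ p : ℕ, (p : ℤ) ∣ 1 * (m : ℤ) + (((2 * q i - 1) ^ 2 : ℕ) : ℤ) ↔
      p ∣ (2 * q i - 1) ^ 2 + m := by
    intro i p
    have : (1 * (m : ℤ) + (((2 * q i - 1) ^ 2 : ℕ) : ℤ)) = (((2 * q i - 1) ^ 2 + m : ℕ) : ℤ) := by
      rw [Nat.cast_add]
      ring
    rw [this]
    exact Int.natCast_dvd_natCast
  constructor
  · rintro ⟨h1, h2, h3⟩
    refine ⟨h1, by omega, ?_⟩
    intro p hp hpy i hd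
    have := h3 i p hp ((hdiv i p).1 hd)
    linarith
  · rintro ⟨h1, h2, h3⟩
    refine ⟨h1, by omega, ?_⟩
    intro i p hp hd
    by_contra hcon
    push Not at hcon
    exact h3 p hp hcon i ((hdiv i p).2 hd)

/-- **Almost primes at the same place between many odd squares.** -/
theorem result (r : ℕ) : ∃ κ c : ℝ, 0 < κ ∧ 0 < c ∧ ∀ C : ℕ, ∃ R : ℕ, ∀ (t : ℕ) (ε : ℝ), 0 < ε →
    ∃ B N₀ : ℕ, ∀ N : ℕ, N₀ ≤ N → ∀ q : Fin r → ℕ, (∀ i, N ≤ q i ∧ q i ≤ N ^ C) →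
      c * (N / Real.log N ^ r) ≤ ((Common N q κ).ncard : ℝ) ∧
      (∀ m ∈ Common N q κ, ∀ i, (2 * q i - 1) ^ 2 < (2 * q i - 1) ^ 2 + m ∧
        (2 * q i - 1) ^ 2 + m < (2 * q i + 1) ^ 2 ∧
        ((2 * q i - 1) ^ 2 + m).primeFactorsList.length ≤ R) ∧
      ∀ S ⊆ Common N q κ,
        ({m ∈ S | ¬ InProgression (t + 1) (Real.log N ^ B) S m}.ncard : ℝ) ≤
          ε * ((Common N q κ).ncard : ℝ) := by
  obtain ⟨κ, c, hκ0, hκ1, hc, h⟩ := formsN r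
  refine ⟨κ, c, hκ0, hc, ?_⟩
  intro C
  obtain ⟨R, hR⟩ := exists_nat_gt ((2 * C + 4) / κ)
  refine ⟨R, ?_⟩
  intro t ε hε
  obtain ⟨B, N₀, h1⟩ := h t ε hε
  refine ⟨B, max N₀ 8, ?_⟩
  intro N hN q hq
  have hN8 : 8 ≤ N := (le_max_right _ _).trans hN
  have hq1 : ∀ i, 1 ≤ q i := fun i => by
    have := (hq i).1
    omega
  have h2 := h1 N (8 * N - 1) ((le_max_left _ _).trans hN) (by omega) (by
      calc 8 * N - 1 ≤ 8 * N := Nat.sub_le _ _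
        _ ≤ N * N := Nat.mul_le_mul_right _ hN8
        _ = N ^ 2 := (sq N).symm)
    (fun _ => 1) (fun i => (((2 * q i - 1) ^ 2 : ℕ) : ℤ)) (fun _ => Or.inl rfl) (adm_sq q hq1)
  rw [← common_eq N q κ (by omega)] at h2
  refine ⟨h2.1, ?_, h2.2⟩
  intro m hm i
  have hm1 := hm.1
  have hm2 := hm.2.1
  obtain ⟨j, hj⟩ : ∃ j, q i = j + 1 := ⟨q i - 1, by have := hq1 i; omega⟩
  have e1 : 2 * q i - 1 = 2 * j + 1 := by omega
  have e2 : 2 * q i + 1 = 2 * j + 3 := by omega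
  have hlt : (2 * q i - 1) ^ 2 + m < (2 * q i + 1) ^ 2 := by
    rw [e1, e2]
    have := (hq i).1
    nlinarith
  refine ⟨by omega, hlt, ?_⟩
  have hX1 : (1 : ℝ) ≤ ((8 * N - 1 : ℕ) : ℝ) := by
    have : 1 ≤ 8 * N - 1 := by omega
    exact_mod_cast this
  have hX8 : (N : ℝ) ≤ ((8 * N - 1 : ℕ) : ℝ) := by
    have : N ≤ 8 * N - 1 := by omega
    exact_mod_cast this
  apply len_rough (y := ((8 * N - 1 : ℕ) : ℝ) ^ κ) (Real.one_le_rpow hX1 hκ0.le) (by omega) _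
    (fun p hp hd => hm.2.2 i p hp hd)
  have hNr : (8 : ℝ) ≤ N := by exact_mod_cast hN8
  have h5 : (((2 * q i - 1) ^ 2 + m : ℕ) : ℝ) < (N : ℝ) ^ (2 * C + 3) := by
    have h6 : (2 * q i + 1) ^ 2 ≤ N ^ (2 * C + 2) := by
      have h7 : 2 * q i + 1 ≤ N * N ^ C := by
        have := (hq i).2
        have := hq1 i
        nlinarith
      calc (2 * q i + 1) ^ 2 ≤ (N * N ^ C) ^ 2 := Nat.pow_le_pow_left h7 2
        _ = N ^ (2 * C + 2) := by ring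
    have h8 : N ^ (2 * C + 2) ≤ N ^ (2 * C + 3) := Nat.pow_le_pow_right (by omega) (by omega)
    have : (2 * q i - 1) ^ 2 + m < N ^ (2 * C + 3) := lt_of_lt_of_le hlt (h6.trans h8)
    exact_mod_cast this
  refine h5.trans ?_
  rw [← Real.rpow_natCast (((8 * N - 1 : ℕ) : ℝ) ^ κ), ← Real.rpow_mul (by linarith)]
  calc (N : ℝ) ^ (2 * C + 3) = (N : ℝ) ^ ((2 * C + 3 : ℕ) : ℝ) := (Real.rpow_natCast _ _).symm
    _ < (N : ℝ) ^ (κ * ((R + 1 : ℕ) : ℝ)) := by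
        apply Real.rpow_lt_rpow_of_exponent_lt (by linarith)
        rw [div_lt_iff₀ hκ0] at hR
        push_cast
        nlinarith
    _ ≤ (((8 * N - 1 : ℕ) : ℝ)) ^ (κ * ((R + 1 : ℕ) : ℝ)) :=
        Real.rpow_le_rpow (by positivity) hX8 (by positivity)

end Pool.Agent.Results.MP_3a3367_nt.AlignedAlmostPrimes
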