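import Pool.Agent.Y816.PD.UniJ

set_option autoImplicit false

/-!
# Almost primes with restricted digits between consecutive odd squares

For every large `n` and every admissible `H` the `m` for which all `m + h`, `h ∈ H`, lie between the consecutive
odd squares `(2 n - 1) ^ 2` and `(2 n + 1) ^ 2`, and whose `i`-th digit in base `b` belongs to an arbitrary set
`A i` for all `i < K`, are considered; `K` is the integer part of `log_b (8 n / 3)`.
-/

namespace Pool.Agent.Results.MP_3a3367_nt.RestrictedDigits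

open Finset Filter
open Pool.Agent.Y816.PD (NA DC AT PT)

/-- The integers strictly between the odd squares `(2 n - 1) ^ 2` and `(2 n + 1) ^ 2`. -/
def Int (n : ℕ) : Set ℕ := {m | (2 * n - 1) ^ 2 < m ∧ m < (2 * n + 1) ^ 2}

lemma sq_eq {n : ℕ} (hn : 1 ≤ n) : (2 * n - 1) ^ 2 + 8 * n = (2 * n + 1) ^ 2 := by
  obtain ⟨t, rfl⟩ : ∃ t, n = t + 1 := ⟨n - 1, by omega⟩
  have : 2 * (t + 1) - 1 = 2 * t + 1 := by omega
  rw [this]
  ring

/-- **Almost prime tuples with restricted digits between consecutive odd squares.** -/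
theorem result (H : Finset ℕ) (hH : ∀ p : ℕ, p.Prime → ∃ m : ℕ, ∀ h ∈ H, ¬ p ∣ m + h) (k : ℕ)
    (hk : H.card = k) (hk1 : 1 ≤ k) :
    ∃ c : ℝ, 0 < c ∧ ∃ r₀ : ℕ, 2 ≤ r₀ ∧ ∀ r : ℕ, r₀ ≤ r → ∀ b : ℕ, 2 ≤ b → ∃ κ C : ℝ, 0 < κ ∧ 0 < C ∧
      ∀ᶠ n : ℕ in atTop, ∀ K : ℕ, K = Nat.log b (8 * n / 3) →
        ∀ A : ℕ → Finset ℕ, (∀ i < K, A i ⊆ range b) → (b : ℝ) ^ K ≤ Real.exp (c * K) * NA K A →
        ((∃ d ∈ A 0, ∀ h ∈ H, (d + h).Coprime b) →
          κ * NA K A / (K : ℝ) ^ k ≤ DC b K A (AT H (Int n) r (b ^ K))) ∧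
        (DC b K A (PT H (Int n)) : ℝ) ≤ C * NA K A / (K : ℝ) ^ k := by
  apply Pool.Agent.Y816.PD.uni_fam atTop Int (fun n => (2 * n - 1) ^ 2) (fun n => 8 * n)
    (fun n => 8 * n) 2 1 _ _ _ _ _ H hH k hk hk1
  · exact tendsto_atTop_mono (fun n => (by omega : n ≤ 8 * n)) tendsto_id
  · exact Eventually.of_forall fun n => ⟨le_rfl, by omega⟩
  · refine Eventually.of_forall fun n => ?_
    exact Nat.pow_le_pow_left (by omega) 2
  · filter_upwards [eventually_ge_atTop 1] with n hn m h1 h2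
    rw [sq_eq hn] at h2
    exact ⟨h1, h2⟩
  · filter_upwards [eventually_ge_atTop 1] with n hn m hm
    rw [sq_eq hn]
    exact hm

end Pool.Agent.Results.MP_3a3367_nt.RestrictedDigits
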